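import Pool.Agent.helper41.HFE.Spec

set_option autoImplicit false

open Polynomial Module Pool.Agent.HFN

namespace Pool.Agent.HFE

noncomputable section

/-- divisors up to units are finitely many -/
theorem ONC_fin (G : AA) (hG : G ≠ 0) : {a : Associates AA | a ∣ Associates.mk G}.Finite := by
  have hy : Associates.mk G ≠ 0 := Associates.mk_ne_zero.mpr hG
  have hfin : Finite {x : Associates AA // x ∣ Associates.mk G} :=
    @Finite.of_fintype _ (UniqueFactorizationMonoid.fintypeSubtypeDvd (Associates.mk G) hy)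
  exact Set.finite_coe_iff.mp hfin

/-- a maximal element of a bounded nonempty set of natural numbers -/
theorem ONC_max (P : ℕ → Prop) (B : ℕ) (hne : ∃ n, P n) (hB : ∀ n, P n → n ≤ B) :
    ∃ n, P n ∧ ∀ m, P m → m ≤ n := by
  classical
  obtain ⟨n0, hn0⟩ := hne
  refine ⟨Nat.findGreatest P B, Nat.findGreatest_spec (hB n0 hn0) hn0, fun m hm => ?_⟩
  exact Nat.le_findGreatest (hB m hm) hm

/-- a polynomial of bidegree zero is a constant -/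
theorem ONC_const (k : AA) (hx : dX k = 0) (hy : dY k = 0) : ∃ d : ℂ, k = C (C d) := by
  have h1 : k = C (k.coeff 0) := Polynomial.eq_C_of_natDegree_eq_zero hy
  rw [h1, dX_C] at hx
  have h2 : k.coeff 0 = C ((k.coeff 0).coeff 0) := Polynomial.eq_C_of_natDegree_eq_zero hx
  exact ⟨(k.coeff 0).coeff 0, by rw [← h2]; exact h1⟩

theorem ONC_app (φ ψ : AA →ₗ[ℂ] ℂ) (t : ℂ) (x : AA) : (φ + t • ψ) x = φ x + t * ψ x := by
  rw [LinearMap.add_apply, LinearMap.smul_apply, smul_eq_mul]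

theorem ONC_Fu {Z : Finset (ℂ × ℂ)} {i j : ℕ} {φ ψ : AA →ₗ[ℂ] ℂ} (hφ : Fu Z i j φ)
    (hψ : Fu Z i j ψ) (t : ℂ) : Fu Z i j (φ + t • ψ) := by
  refine ⟨fun f hf => ?_, fun f hf => ?_⟩
  · rw [ONC_app, hφ.1 f hf, hψ.1 f hf, mul_zero, add_zero]
  · rw [ONC_app, hφ.2 f hf, hψ.2 f hf, mul_zero, add_zero]

theorem ONC_An (φ ψ : AA →ₗ[ℂ] ℂ) (t : ℂ) (f g : AA) (hf : f ∈ An φ) (hg : g ∈ An ψ) :
    f * g ∈ An (φ + t • ψ) := by
  intro h
  rw [ONC_app]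
  have h1 : φ (h * (f * g)) = 0 := by
    have := hf (h * g)
    rw [← this]
    ring_nf
  have h2 : ψ (h * (f * g)) = 0 := by
    have := hg (h * f)
    rw [← this]
    ring_nf
  rw [h1, h2, mul_zero, add_zero]

/-- two members of the pencil -/
theorem ONC_two (φ ψ : AA →ₗ[ℂ] ℂ) (t t' : ℂ) (htt : t ≠ t') (f : AA)
    (h1 : f ∈ An (φ + t • ψ)) (h2 : f ∈ An (φ + t' • ψ)) : f ∈ An φ ∧ f ∈ An ψ := by
  have hψ : f ∈ An ψ := by
    intro g
    have h3 := h1 g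
    have h4 := h2 g
    rw [ONC_app] at h3 h4
    have h5 : (t - t') * ψ (g * f) = 0 := by linear_combination h3 - h4
    rcases mul_eq_zero.mp h5 with h6 | h6
    · exact absurd (sub_eq_zero.mp h6) htt
    · exact h6
  refine ⟨fun g => ?_, hψ⟩
  have h3 := h1 g
  rw [ONC_app, hψ g, mul_zero, add_zero] at h3
  exact h3

theorem ONC_inf (φ ψ : AA →ₗ[ℂ] ℂ) (hψ : ψ ≠ 0) : {t : ℂ | φ + t • ψ ≠ 0}.Infinite := by
  have h1 : {t : ℂ | φ + t • ψ = 0}.Finite := by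
    refine Set.Subsingleton.finite ?_
    intro t ht t' ht'
    by_contra hne
    apply hψ
    ext x
    have h3 : (φ + t • ψ) x = 0 := by
      have : φ + t • ψ = 0 := ht
      rw [this]
      rfl
    have h4 : (φ + t' • ψ) x = 0 := by
      have : φ + t' • ψ = 0 := ht'
      rw [this]
      rfl
    rw [ONC_app] at h3 h4
    have h5 : (t - t') * ψ x = 0 := by linear_combination h3 - h4
    rcases mul_eq_zero.mp h5 with h6 | h6
    · exact absurd (sub_eq_zero.mp h6) hne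
    · exact h6
  have h2 : {t : ℂ | φ + t • ψ ≠ 0} = {t : ℂ | φ + t • ψ = 0}ᶜ := rfl
  rw [h2]
  exact h1.infinite_compl

theorem ONC (hRNK : RNK_stmt) (hEXK : EXK_stmt) (hSTA : STA_stmt) (hDIV : DIV_stmt) :
    ONC_stmt := by
  intro Z i j h4 hTr hex
  have hp : (i + 1) / 2 ≤ i := by omega
  have hq : (j + 1) / 2 ≤ j := by omega
  have hCD : ∀ (φ : AA →ₗ[ℂ] ℂ) (f : AA), φ ≠ 0 → Fu Z i j φ →
      Mn φ ((i + 1) / 2) ((j + 1) / 2) f → CD i j Z.card (dX f) (dY f) := by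
    intro φ f hne hFu hMn
    obtain ⟨hc, hcod⟩ := hRNK Z φ hFu.1
    exact hSTA φ i j Z.card f hc hcod hne hFu.2 hMn
  have hE : ∀ φ : AA →ₗ[ℂ] ℂ, Fu Z i j φ → ∃ f, Mn φ ((i + 1) / 2) ((j + 1) / 2) f := by
    intro φ hFu
    obtain ⟨hc, hcod⟩ := hRNK Z φ hFu.1
    exact hEXK φ i j Z.card hc hcod hFu.2 h4
  obtain ⟨φ1, hφ1, hFu1⟩ := hex
  obtain ⟨f1, hf1⟩ := hE φ1 hFu1
  obtain ⟨n, ⟨φ0, f0, hφ0, hFu0, hMn0, hn⟩, hmax⟩ := ONC_max
    (fun n => ∃ (φ : AA →ₗ[ℂ] ℂ) (f : AA), φ ≠ 0 ∧ Fu Z i j φ ∧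
      Mn φ ((i + 1) / 2) ((j + 1) / 2) f ∧ dX f + dY f = n) ((i + 1) / 2 + (j + 1) / 2)
    ⟨dX f1 + dY f1, φ1, f1, hφ1, hFu1, hf1, rfl⟩ (by
      rintro n ⟨φ, f, -, -, hMn, rfl⟩
      exact add_le_add (mem_V.mp hMn.deg).1 (mem_V.mp hMn.deg).2)
  have hCD0 := hCD φ0 f0 hφ0 hFu0 hMn0
  refine ⟨φ0, f0, hφ0, hFu0, hMn0, hCD0, fun ψ hFuψ => ?_⟩
  by_cases hψ : ψ = 0
  · intro g
    rw [hψ]
    rfl
  obtain ⟨g, hg⟩ := hE ψ hFuψ
  have hCDg := hCD ψ g hψ hFuψ hg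
  have hG0 : f0 * g ≠ 0 := mul_ne_zero hMn0.ne hg.ne
  -- divisors
  have key : ∀ t : ℂ, φ0 + t • ψ ≠ 0 → ∃ h : AA, Mn (φ0 + t • ψ) ((i + 1) / 2) ((j + 1) / 2) h ∧
      h ∣ f0 * g := by
    intro t ht
    have hFut := ONC_Fu hFu0 hFuψ t
    obtain ⟨h, hh⟩ := hE _ hFut
    refine ⟨h, hh, ?_⟩
    by_contra hnd
    obtain ⟨hc, hcod⟩ := hRNK Z _ hFut.1
    have hCDh := hCD _ h ht hFut hh
    have hGV : f0 * g ∈ V (dX f0 + dX g) (dY f0 + dY g) :=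
      ⟨dX_mul_le f0 g, dY_mul_le f0 g⟩
    have h0 := hCD0
    have h1 := hCDg
    unfold CD at h0 h1
    have hD := hDIV (φ0 + t • ψ) i j _ _ h hc ht hFut.2 hh hp hq (f0 * g) (dX f0 + dX g)
      (dY f0 + dY g) (ONC_An φ0 ψ t f0 g hMn0.mem hg.mem) hGV (by omega) (by omega) hnd
    rcases hTr _ _ _ _ _ _ hCDh hCD0 hCDg with h2 | h2
    · omega
    · omega
  choose! H hH using key
  obtain ⟨t, ht, t', ht', hne, hass⟩ := (ONC_inf φ0 ψ hψ).exists_ne_map_eq_of_mapsTo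
    (f := fun t => Associates.mk (H t)) (t := {a : Associates AA | a ∣ Associates.mk (f0 * g)})
    (fun t ht => Associates.mk_dvd_mk.mpr (hH t ht).2) (ONC_fin _ hG0)
  have hass' : Associated (H t') (H t) := (Associates.mk_eq_mk_iff_associated.mp hass).symm
  obtain ⟨u, hu⟩ := hass'
  have hMt := (hH t ht).1
  have hMt' := (hH t' ht').1
  have hmem' : H t ∈ An (φ0 + t' • ψ) := by
    rw [← hu]
    exact (An _).mul_mem_right _ hMt'.mem
  obtain ⟨hmφ, hmψ⟩ := ONC_two φ0 ψ t t' hne (H t) hMt.mem hmem'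
  have hFut := ONC_Fu hFu0 hFuψ t
  have hCDh := hCD _ (H t) ht hFut hMt
  have hmaxt : dX (H t) + dY (H t) ≤ dX f0 + dY f0 := by
    rw [hn]
    exact hmax _ ⟨_, H t, ht, hFut, hMt, rfl⟩
  have hdvd : f0 ∣ H t := by
    by_contra hnd
    obtain ⟨hc, hcod⟩ := hRNK Z _ hFu0.1
    have h0 := hCD0
    have h1 := hCDh
    unfold CD at h0 h1
    have hD := hDIV φ0 i j _ _ f0 hc hφ0 hFu0.2 hMn0 hp hq (H t) (dX (H t)) (dY (H t)) hmφ
      ⟨le_rfl, le_rfl⟩ (by omega) (by omega) hnd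
    omega
  obtain ⟨k, hk⟩ := hdvd
  have hk0 : k ≠ 0 := by
    intro h0
    apply hMt.ne
    rw [hk, h0, mul_zero]
  have hdx : dX (H t) = dX f0 + dX k := by rw [hk]; exact dX_mul hMn0.ne hk0
  have hdy : dY (H t) = dY f0 + dY k := by rw [hk]; exact dY_mul hMn0.ne hk0
  obtain ⟨d, hd⟩ := ONC_const k (by omega) (by omega)
  have hd0 : d ≠ 0 := by
    intro h0
    apply hk0
    rw [hd, h0, C_0, C_0]
  have hf0 : f0 = H t * C (C d⁻¹) := by
    rw [hk, hd, mul_assoc, ← C_mul, ← C_mul, mul_inv_cancel₀ hd0, C_1, C_1, mul_one]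
  rw [hf0]
  exact (An ψ).mul_mem_right _ hmψ

end

end Pool.Agent.HFE
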